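import Pool.Agent.Y282.SG.Inner2

/-!
Uncountably many singleton complementary components.
-/

set_option autoImplicit false

open Filter Topology Metric Set Polynomial

namespace Pool.Agent.Y282.SG

open Pool.Agent.H384R2.Fatou Pool.Agent.W723.MC Pool.Agent.TH224.SC

namespace Sys2

variable {f : ℂ → ℂ} {r s R' : ℕ → ℝ}

/-- finite itineraries -/
theorem itin (h : Sys2 f r s R') {Λ : ℕ → Bool → Set ℂ}
    (hL : ∀ n b y, ‖y‖ ≤ s (n + 1) → ∃ w ∈ Λ n b, ‖w‖ ≤ s n ∧ f w = y) (j : ℕ) :
    ∀ (n : ℕ) (b : ℕ → Bool), ∃ x : ℂ, (∀ i < j, f^[i] x ∈ Λ (n + i) (b i)) ∧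
      ∀ i ≤ j, ‖f^[i] x‖ ≤ s (n + i) := by
  induction j with
  | zero =>
    intro n b
    refine ⟨0, fun i hi => absurd hi (Nat.not_lt_zero i), fun i hi => ?_⟩
    rw [h.iter_zero, norm_zero]
    exact (h.s_pos _).le
  | succ j ih =>
    intro n b
    obtain ⟨x', hx'1, hx'2⟩ := ih (n + 1) (fun i => b (i + 1))
    have h0 := hx'2 0 (Nat.zero_le _)
    rw [Function.iterate_zero, id, add_zero] at h0
    obtain ⟨w, hw, hws, hwx⟩ := hL n (b 0) x' h0
    refine ⟨w, ?_, ?_⟩
    · intro i hi
      rcases i with _ | i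
      · exact hw
      · rw [Function.iterate_succ_apply, hwx]
        have := hx'1 i (by omega)
        have e : n + 1 + i = n + (i + 1) := by omega
        rwa [e] at this
    · intro i hi
      rcases i with _ | i
      · exact hws
      · rw [Function.iterate_succ_apply, hwx]
        have := hx'2 i (by omega)
        have e : n + 1 + i = n + (i + 1) := by omega
        rwa [e] at this

/-- infinite itineraries -/
theorem itin_inf (h : Sys2 f r s R') {Λ : ℕ → Bool → Set ℂ} (hc : ∀ n b, IsClosed (Λ n b))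
    (hL : ∀ n b y, ‖y‖ ≤ s (n + 1) → ∃ w ∈ Λ n b, ‖w‖ ≤ s n ∧ f w = y) (b : ℕ → Bool) :
    ∃ x : ℂ, (∀ i, f^[i] x ∈ Λ i (b i)) ∧ ∀ i, ‖f^[i] x‖ ≤ s i := by
  set A : ℕ → Set ℂ := fun j => {x | (∀ i < j, f^[i] x ∈ Λ i (b i)) ∧ ∀ i ≤ j, ‖f^[i] x‖ ≤ s i}
    with hA
  have hcont : ∀ i, Continuous f^[i] := fun i => h.hf.continuous.iterate i
  have hclosed : ∀ j, IsClosed (A j) := by
    intro j
    have e : A j = (⋂ i, ⋂ (_ : i < j), f^[i] ⁻¹' Λ i (b i)) ∩
        ⋂ i, ⋂ (_ : i ≤ j), {x | ‖f^[i] x‖ ≤ s i} := by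
      ext x
      simp [hA]
    rw [e]
    apply IsClosed.inter
    · exact isClosed_iInter fun i => isClosed_iInter fun _ => (hc i (b i)).preimage (hcont i)
    · exact isClosed_iInter fun i => isClosed_iInter fun _ =>
        isClosed_le (hcont i).norm continuous_const
  have hanti : ∀ j, A (j + 1) ⊆ A j := by
    rintro j x ⟨h1, h2⟩
    exact ⟨fun i hi => h1 i (by omega), fun i hi => h2 i (by omega)⟩
  have hne : ∀ j, (A j).Nonempty := by
    intro j
    obtain ⟨x, hx1, hx2⟩ := h.itin hL j 0 b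
    refine ⟨x, fun i hi => ?_, fun i hi => ?_⟩
    · have := hx1 i hi
      rwa [zero_add] at this
    · have := hx2 i hi
      rwa [zero_add] at this
  have hcpt : IsCompact (A 0) := by
    apply IsCompact.of_isClosed_subset (isCompact_closedBall (0 : ℂ) (s 0)) (hclosed 0)
    rintro x ⟨-, h2⟩
    rw [mem_closedBall_zero_iff]
    exact h2 0 le_rfl
  obtain ⟨x, hx⟩ := IsCompact.nonempty_iInter_of_sequence_nonempty_isCompact_isClosed A hanti hne
    hcpt hclosed
  rw [mem_iInter] at hx
  exact ⟨x, fun i => (hx (i + 1)).1 i (Nat.lt_succ_self i), fun i => (hx i).2 i le_rfl⟩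

/-- points with small orbits are not in `U` -/
theorem not_U_of_small (h : Sys2 f r s R') {x : ℂ} (hx : ∀ i, ‖f^[i] x‖ ≤ s i) : x ∉ U f s 0 := by
  intro hxU
  obtain ⟨k, hk⟩ := (h.growth hxU 1).exists
  have h1 := hk.1
  rw [zero_add, pow_one] at h1
  linarith [hx k]

/-- the component of the complement of a point with a small orbit -/
theorem comp_small (h : Sys2 f r s R') {x : ℂ} (hx : ∀ i, ‖f^[i] x‖ ≤ s i) :
    ∀ z ∈ connectedComponentIn (U f s 0)ᶜ x, ∀ i, ‖f^[i] z‖ ≤ s i := by
  have hx0 : x ∈ (U f s 0)ᶜ := h.not_U_of_small hx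
  have hball : ∀ z ∈ connectedComponentIn (U f s 0)ᶜ x, ‖z‖ < r 1 := by
    intro z hz
    by_contra hcon
    push Not at hcon
    have hxs : ‖x‖ ≤ s 0 := hx 0
    have hsr := h.s_lt_r 0
    have hsr : s 0 < r 1 := hsr
    obtain ⟨w, hw, hwt⟩ := cross isPreconnected_connectedComponentIn (mem_connectedComponentIn hx0)
      hz (t := (s 0 + r 1) / 2) (by linarith) (by linarith)
    have h1 : w ∈ B r s 0 := by
      refine ⟨by linarith, ?_⟩
      rw [hwt]
      show (s 0 + r 1) / 2 < r (0 + 1)
      rw [zero_add]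
      linarith
    exact connectedComponentIn_subset _ _ hw (h.B_U 0 h1)
  intro z hz i
  have h1 := h.not_U (n := 0) (connectedComponentIn_subset _ _ hz) (by
    rw [zero_add]; exact hball z hz) i
  rwa [zero_add] at h1

/-- **singletons** -/
theorem singles (h : Sys2 f r s R') :
    ¬ {x : ℂ | x ∈ (U f s 0)ᶜ ∧ connectedComponentIn (U f s 0)ᶜ x = {x}}.Countable := by
  choose Λ hΛc hΛd hΛ hΛo hΛs using fun m => (h.st m).lam
  have hx := h.itin_inf hΛc hΛo
  choose pt hpt1 hpt2 using hx
  -- coding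
  set code : (ℕ → Bool) → (ℕ → Bool) := fun c i => if i % 2 = 0 then true else c (i / 2) with hcode
  have hcode_inj : Function.Injective code := by
    intro c c' hcc
    funext k
    have h1 := congrFun hcc (2 * k + 1)
    have h2 : (2 * k + 1) % 2 ≠ 0 := by omega
    have h3 : (2 * k + 1) / 2 = k := by omega
    simp only [hcode, if_neg h2, h3] at h1
    exact h1
  have hpt_inj : Function.Injective pt := by
    intro b b' hbb
    funext i
    by_contra hne
    have h1 := hpt1 b i
    have h2 := hpt1 b' i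
    rw [← hbb] at h2
    have hd := Set.disjoint_left.1 (hΛd i)
    cases hb : b i <;> cases hb' : b' i
    · exact hne (by rw [hb, hb'])
    · rw [hb] at h1; rw [hb'] at h2; exact hd h1 h2
    · rw [hb] at h1; rw [hb'] at h2; exact hd h2 h1
    · exact hne (by rw [hb, hb'])
  have hmem : ∀ c : ℕ → Bool, pt (code c) ∈
      {x : ℂ | x ∈ (U f s 0)ᶜ ∧ connectedComponentIn (U f s 0)ᶜ x = {x}} := by
    intro c
    set x := pt (code c) with hxdef
    have hxs : ∀ i, ‖f^[i] x‖ ≤ s i := hpt2 _
    have hx0 : x ∈ (U f s 0)ᶜ := h.not_U_of_small hxs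
    refine ⟨hx0, ?_⟩
    set P := connectedComponentIn (U f s 0)ᶜ x with hP
    have hPp : IsPreconnected P := isPreconnected_connectedComponentIn
    have hxP : x ∈ P := mem_connectedComponentIn hx0
    have hPs := h.comp_small hxs
    have key : ∀ m : ℕ, m % 2 = 0 → ∀ y ∈ P, ‖x - y‖ ≤ 1 / ((m : ℝ) + 1) := by
      intro m hm y hy
      apply hΛs m P hPp _ _ x hxP y hy
      · intro z hz i hi
        have h1 := hPs z hz i
        obtain ⟨k, rfl⟩ := Nat.exists_eq_add_of_lt hi
        have h2 : s i ≤ s (i + k) := h.s_mono (Nat.le_add_right _ _)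
        have h3 := h.s_lt_R (i + k)
        have h4 := h.R_lt (i + k)
        have h5 : i + k + 1 = i + k + 1 := rfl
        linarith
      · have hI : IsPreconnected (f^[m] '' P) :=
          hPp.image _ (h.hf.continuous.iterate m).continuousOn
        have hIcov : f^[m] '' P ⊆ Λ m false ∪ Λ m true := by
          rintro _ ⟨z, hz, rfl⟩
          have h3 := hPs z hz m
          have h4 := hPs z hz (m + 1)
          rw [Function.iterate_succ_apply'] at h4
          obtain ⟨b, hb⟩ := hΛ m _ h3 h4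
          cases b
          · exact Or.inl hb
          · exact Or.inr hb
        have hxm : f^[m] x ∈ Λ m true := by
          have h1 := hpt1 (code c) m
          have h2 : code c m = true := by simp only [hcode, if_pos hm]
          rwa [h2] at h1
        intro z hz
        by_contra hcon
        have hzf : f^[m] z ∈ Λ m false := by
          rcases hIcov ⟨z, hz, rfl⟩ with h1 | h1
          · exact h1
          · exact absurd h1 hcon
        obtain ⟨v, -, hv1, hv2⟩ := isPreconnected_closed_iff.1 hI _ _ (hΛc m false) (hΛc m true)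
          hIcov ⟨_, ⟨z, hz, rfl⟩, hzf⟩ ⟨_, ⟨x, hxP, rfl⟩, hxm⟩
        exact Set.disjoint_left.1 (hΛd m) hv1 hv2
    apply Set.eq_singleton_iff_unique_mem.2
    refine ⟨hxP, fun y hy => ?_⟩
    have h1 : ‖x - y‖ ≤ 0 := by
      have h2 : Tendsto (fun k : ℕ => 1 / (((2 * k : ℕ) : ℝ) + 1)) atTop (𝓝 0) := by
        have h3 : Tendsto (fun k : ℕ => 2 * k) atTop atTop :=
          tendsto_id.const_mul_atTop' (by norm_num)
        exact (tendsto_one_div_add_atTop_nhds_zero_nat (𝕜 := ℝ)).comp h3
      exact ge_of_tendsto' h2 fun k => key (2 * k) (by omega) y hy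
    have h2 : x - y = 0 := norm_le_zero_iff.1 h1
    exact (sub_eq_zero.1 h2).symm
  intro hcount
  have hinj : Function.Injective (fun c : ℕ → Bool =>
      (⟨pt (code c), hmem c⟩ : {x : ℂ | x ∈ (U f s 0)ᶜ ∧
        connectedComponentIn (U f s 0)ᶜ x = {x}})) := by
    intro c c' hcc
    exact hcode_inj (hpt_inj (Subtype.ext_iff.1 hcc))
  have : Countable {x : ℂ | x ∈ (U f s 0)ᶜ ∧ connectedComponentIn (U f s 0)ᶜ x = {x}} :=
    hcount.to_subtype
  have hC : Countable (ℕ → Bool) := hinj.countable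
  have hC2 : Countable (Set ℕ) := by
    classical
    have : Function.Injective (fun A : Set ℕ => (fun n => decide (n ∈ A) : ℕ → Bool)) := by
      intro A A' hAA
      ext n
      have := congrFun hAA n
      simpa using this
    exact this.countable
  obtain ⟨g, hg⟩ := exists_surjective_nat (Set ℕ)
  exact Function.cantor_surjective g hg

end Sys2

end Pool.Agent.Y282.SG
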