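import Pool.Agent.TH224.SC.Lem

/-!
A lemniscate polynomial with two components, one of them tiny, and the smallness of the components
of preimages of tiny discs.
-/

set_option autoImplicit false

open Filter Topology Metric Set Polynomial

namespace Pool.Agent.Y282.SG

open Pool.Agent.TH224.SC

/-- the complement of two discs centred on the real axis is connected -/
theorem compl_two {s : ℝ} (hs : 0 < s) {a b : ℝ} {ra rb : ℝ}
    (ha : closedBall (a : ℂ) ra ⊆ ball 0 s) (hb : closedBall (b : ℂ) rb ⊆ ball 0 s) :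
    IsPreconnected (closedBall (a : ℂ) ra ∪ closedBall (b : ℂ) rb)ᶜ := by
  set K := closedBall (a : ℂ) ra ∪ closedBall (b : ℂ) rb with hK
  have hout : ∀ z : ℂ, s ≤ ‖z‖ → z ∈ Kᶜ := by
    rintro z hz (h | h)
    · have := ha h
      rw [mem_ball_zero_iff] at this
      linarith
    · have := hb h
      rw [mem_ball_zero_iff] at this
      linarith
  -- the vertical line
  set Lv : Set ℂ := {z | z.re = s} with hLv
  have hLvc : Convex ℝ Lv := by
    intro x hx y hy u v hu hv huv
    have hx' : x.re = s := hx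
    have hy' : y.re = s := hy
    show (u • x + v • y).re = s
    simp only [Complex.add_re, Complex.real_smul, Complex.mul_re, Complex.ofReal_re,
      Complex.ofReal_im, zero_mul, sub_zero, hx', hy']
    rw [← add_mul, huv, one_mul]
  have hLvK : Lv ⊆ Kᶜ := by
    intro z hz
    apply hout
    have hz' : z.re = s := hz
    have := Complex.abs_re_le_norm z
    rw [hz', abs_of_pos hs] at this
    exact this
  -- horizontal lines
  have hH : ∀ t : ℝ, s ≤ |t| → {z : ℂ | z.im = t} ⊆ Kᶜ := by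
    intro t ht z hz
    apply hout
    have hz' : z.im = t := hz
    have := Complex.abs_im_le_norm z
    rw [hz'] at this
    linarith
  have hHc : ∀ t : ℝ, Convex ℝ {z : ℂ | z.im = t} := by
    intro t x hx y hy u v hu hv huv
    have hx' : x.im = t := hx
    have hy' : y.im = t := hy
    show (u • x + v • y).im = t
    simp only [Complex.add_im, Complex.real_smul, Complex.mul_im, Complex.ofReal_re,
      Complex.ofReal_im, zero_mul, add_zero, hx', hy']
    rw [← add_mul, huv, one_mul]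
  -- vertical rays
  have key : ∀ (c R : ℝ) (z : ℂ) (σ : ℝ), (0 ≤ σ * z.im) → σ ^ 2 = 1 → z ∉ closedBall (c : ℂ) R →
      ∀ t : ℝ, 0 ≤ t → z + ((σ * t : ℝ) : ℂ) * Complex.I ∉ closedBall (c : ℂ) R := by
    intro c R z σ h1 h2 h3 t ht h4
    apply h3
    rw [mem_closedBall, dist_eq_norm] at h4 ⊢
    refine le_trans ?_ h4
    rw [Complex.norm_eq_sqrt_sq_add_sq, Complex.norm_eq_sqrt_sq_add_sq]
    apply Real.sqrt_le_sqrt
    simp only [Complex.sub_re, Complex.add_re, Complex.mul_re, Complex.ofReal_re, Complex.I_re,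
      mul_zero, Complex.ofReal_im, Complex.I_im, mul_one, sub_self, add_zero, Complex.sub_im,
      Complex.add_im, Complex.mul_im, zero_mul, sub_zero]
    nlinarith [mul_nonneg ht h1, sq_nonneg t]
  apply isPreconnected_of_forall ((s : ℝ) : ℂ)
  intro z hz
  obtain ⟨σ, hσ1, hσ2⟩ : ∃ σ : ℝ, 0 ≤ σ * z.im ∧ σ ^ 2 = 1 := by
    rcases le_total 0 z.im with h | h
    · exact ⟨1, by simpa using h, by norm_num⟩
    · exact ⟨-1, by linarith, by norm_num⟩
  set T : ℝ := s + |z.im| with hT
  set Ray : Set ℂ := (fun t : ℝ => z + ((σ * t : ℝ) : ℂ) * Complex.I) '' Icc 0 T with hRay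
  have hRp : IsPreconnected Ray := isPreconnected_Icc.image _ (by fun_prop)
  have hRK : Ray ⊆ Kᶜ := by
    rintro _ ⟨t, ht, rfl⟩ (h | h)
    · exact key a ra z σ hσ1 hσ2 (fun h' => hz (Or.inl h')) t ht.1 h
    · exact key b rb z σ hσ1 hσ2 (fun h' => hz (Or.inr h')) t ht.1 h
  set y : ℝ := z.im + σ * T with hy
  have hT0 : 0 ≤ T := by positivity
  have hyabs : s ≤ |y| := by
    have hσ : σ = 1 ∨ σ = -1 := by
      have h : (σ - 1) * (σ + 1) = 0 := by linear_combination hσ2
      rcases mul_eq_zero.1 h with h | h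
      · left; linarith
      · right; linarith
    rcases hσ with h | h
    · rw [h] at hσ1
      have h1 : 0 ≤ z.im := by linarith
      rw [hy, h, hT, abs_of_nonneg h1, abs_of_nonneg (by linarith)]
      linarith
    · rw [h] at hσ1
      have h1 : z.im ≤ 0 := by linarith
      rw [hy, h, hT, abs_of_nonpos h1, abs_of_nonpos (by linarith)]
      linarith
  set Hl : Set ℂ := {w : ℂ | w.im = y} with hHl
  have hend : z + ((σ * T : ℝ) : ℂ) * Complex.I ∈ Hl := by
    show (z + ((σ * T : ℝ) : ℂ) * Complex.I).im = y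
    simp [hy]
  have h1 : IsPreconnected (Ray ∪ Hl) :=
    IsPreconnected.union _ ⟨T, ⟨hT0, le_rfl⟩, rfl⟩ hend hRp (hHc y).isPreconnected
  have hcr : (⟨s, y⟩ : ℂ) ∈ Hl := rfl
  have hcr2 : (⟨s, y⟩ : ℂ) ∈ Lv := rfl
  have h2 : IsPreconnected ((Ray ∪ Hl) ∪ Lv) :=
    IsPreconnected.union _ (Or.inr hcr) hcr2 h1 hLvc.isPreconnected
  refine ⟨(Ray ∪ Hl) ∪ Lv, union_subset (union_subset hRK (hH y hyabs)) hLvK, Or.inr ?_,
    Or.inl (Or.inl ⟨0, ⟨le_rfl, hT0⟩, by simp⟩), h2⟩
  show ((s : ℝ) : ℂ).re = s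
  simp

theorem exists_lem2 {ρ s ε : ℝ} (hρ : 0 < ρ) (hρs : ρ < s) (hε : 0 < ε) :
    ∃ (L : ℂ[X]) (e : Bool → ℂ) (p : ℂ), 0 < L.natDegree ∧
      (∀ z : ℂ, ‖z‖ ≤ ρ → ‖L.eval z‖ < 1 / 4) ∧
      (∀ z : ℂ, s ≤ ‖z‖ → 4 < ‖L.eval z‖ ∧ 4 * ((‖z‖ - s) / (2 * s)) ≤ ‖L.eval z‖) ∧
      (∀ c : ℝ, 1 / 4 ≤ c → c ≤ 4 → ∀ z : ℂ, ‖L.eval z‖ ≤ c →
        ∃ b, z ∈ Vc (fun z => L.eval z) c (e b)) ∧
      Disjoint (Vc (fun z => L.eval z) 4 (e false)) (Vc (fun z => L.eval z) 4 (e true)) ∧
      (∀ b, ‖L.eval (e b)‖ < 1 / 4) ∧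
      Vc (fun z => L.eval z) 4 (e true) ⊆ ball p ε := by
  have hs : 0 < s := by linarith
  set ρ₁ : ℝ := (ρ + s) / 2 with hρ₁
  have h1 : ρ < ρ₁ := by rw [hρ₁]; linarith
  have h2 : ρ₁ < s := by rw [hρ₁]; linarith
  have hρ₁0 : 0 < ρ₁ := by linarith
  set p : ℝ := (ρ₁ + s) / 2 with hp
  set ε₁ : ℝ := min ε ((s - ρ₁) / 4) with hε₁
  have hε₁0 : 0 < ε₁ := lt_min hε (by linarith)
  have hε₁1 : ε₁ ≤ ε := min_le_left _ _
  have hε₁2 : ε₁ ≤ (s - ρ₁) / 4 := min_le_right _ _
  set K0 : Set ℂ := closedBall ((0 : ℝ) : ℂ) ρ with hK0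
  set K1 : Set ℂ := closedBall (p : ℂ) (ε₁ / 2) with hK1
  set K := K0 ∪ K1 with hK
  set O0 : Set ℂ := ball 0 ρ₁ with hO0
  set O1 : Set ℂ := ball (p : ℂ) ε₁ with hO1
  have hO0o : IsOpen O0 := isOpen_ball
  have hO1o : IsOpen O1 := isOpen_ball
  have hp0 : 0 < p := by rw [hp]; linarith
  have hpn : ‖(p : ℂ)‖ = p := by rw [Complex.norm_real, Real.norm_eq_abs, abs_of_pos hp0]
  have hO1b : ∀ z ∈ O1, ρ₁ < ‖z‖ ∧ ‖z‖ < s := by
    intro z hz
    rw [hO1, mem_ball, dist_eq_norm] at hz
    have e1 := norm_sub_norm_le (p : ℂ) z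
    have e2 := norm_sub_norm_le z (p : ℂ)
    rw [norm_sub_rev] at e1
    rw [hpn] at e1 e2
    constructor
    · have : p = (ρ₁ + s) / 2 := hp
      linarith
    · have : p = (ρ₁ + s) / 2 := hp
      linarith
  have hO : Disjoint O0 O1 := by
    rw [Set.disjoint_left]
    intro z hz hz1
    rw [hO0, mem_ball_zero_iff] at hz
    linarith [(hO1b z hz1).1]
  have hK0O : K0 ⊆ O0 := by
    intro z hz
    rw [hK0, Complex.ofReal_zero, mem_closedBall_zero_iff] at hz
    rw [hO0, mem_ball_zero_iff]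
    linarith
  have hK1O : K1 ⊆ O1 := by
    intro z hz
    rw [hK1, mem_closedBall] at hz
    rw [hO1, mem_ball]
    linarith
  have hKs : ∀ z ∈ K, ‖z‖ < s := by
    rintro z (h | h)
    · have := hK0O h
      rw [hO0, mem_ball_zero_iff] at this
      linarith
    · exact (hO1b z (hK1O h)).2
  have hKc : IsCompact K := (isCompact_closedBall _ _).union (isCompact_closedBall _ _)
  have hKinf : K.Infinite := by
    have h4 : (closedBall (0 : ℂ) ρ).Infinite := by
      apply Set.infinite_of_injective_forall_mem (f := fun n : ℕ => ((ρ / (n + 1) : ℝ) : ℂ))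
      · intro a b hab
        have h5 : ρ / (a + 1) = ρ / (b + 1) := Complex.ofReal_injective hab
        have h6 : (a : ℝ) + 1 = b + 1 := by
          field_simp at h5
          linarith
        exact_mod_cast (add_right_cancel h6)
      · intro n
        rw [mem_closedBall_zero_iff, Complex.norm_real, Real.norm_eq_abs,
          abs_of_nonneg (by positivity)]
        exact div_le_self hρ.le (by linarith [(Nat.cast_nonneg n : (0 : ℝ) ≤ n)])
    refine h4.mono (fun z hz => Or.inl ?_)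
    rw [hK0, Complex.ofReal_zero]
    exact hz
  have hKcc : IsConnected Kᶜ := by
    refine ⟨⟨(s : ℂ), fun h => ?_⟩, ?_⟩
    · have := hKs _ h
      rw [Complex.norm_real, Real.norm_eq_abs, abs_of_pos hs] at this
      exact lt_irrefl _ this
    · exact compl_two hs (fun z hz => by rw [mem_ball_zero_iff]; exact hKs z (Or.inl hz))
        (fun z hz => by rw [mem_ball_zero_iff]; exact hKs z (Or.inr hz))
  set W := closedBall (0 : ℂ) s \ (O0 ∪ O1) with hW
  have hWc : IsCompact W := (isCompact_closedBall _ _).diff (hO0o.union hO1o)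
  have hKW : Disjoint K W := by
    rw [Set.disjoint_left]
    rintro z (h | h) ⟨-, h'⟩
    · exact h' (Or.inl (hK0O h))
    · exact h' (Or.inr (hK1O h))
  obtain ⟨n, x, c, hn, hc, hxK, hsmall, hlarge⟩ := exists_sepPoly hKc hKinf hKcc hWc hKW
  set L : ℂ[X] := C c * ∏ i, (X - C (x i)) with hL
  have hLe : ∀ z, L.eval z = c * ∏ i, (z - x i) := by
    intro z
    rw [hL, eval_mul, eval_C, eval_prod]
    simp
  have hLdeg : 0 < L.natDegree := by
    rw [hL, natDegree_C_mul hc, natDegree_prod_of_monic _ _ (fun i _ => monic_X_sub_C _)]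
    simp [hn]
  have hsmall' : ∀ z ∈ K, ‖L.eval z‖ < 1 / 4 := fun z hz => by rw [hLe]; exact hsmall z hz
  have hlarge' : ∀ z ∈ W, 4 < ‖L.eval z‖ := fun z hz => by rw [hLe]; exact hlarge z hz
  have hnorm : ∀ z, ‖L.eval z‖ = ‖c‖ * ∏ i, ‖z - x i‖ := fun z => by
    rw [hLe, norm_mul, norm_prod]
  have hxs : ∀ i, ‖x i‖ < s := fun i => hKs _ (hxK i)
  have hfar : ∀ z : ℂ, s ≤ ‖z‖ → 4 < ‖L.eval z‖ ∧ 4 * ((‖z‖ - s) / (2 * s)) ≤ ‖L.eval z‖ := by
    intro z hz
    have hz0 : 0 < ‖z‖ := by linarith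
    set l : ℝ := ‖z‖ / s with hl
    have hl1 : 1 ≤ l := by rw [hl, le_div_iff₀ hs]; linarith
    have hl0 : 0 < l := by linarith
    set z' : ℂ := z / l with hz'
    have hlne : (l : ℂ) ≠ 0 := by exact_mod_cast hl0.ne'
    have hzz : z = (l : ℂ) * z' := by rw [hz']; field_simp
    have hz's : ‖z'‖ = s := by
      rw [hz', norm_div, Complex.norm_real, Real.norm_eq_abs, abs_of_pos hl0, hl]
      field_simp
    have hz'W : z' ∈ W := by
      refine ⟨by rw [mem_closedBall_zero_iff, hz's], ?_⟩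
      rintro (h | h)
      · rw [hO0, mem_ball_zero_iff, hz's] at h
        linarith
      · have := (hO1b _ h).2
        rw [hz's] at this
        exact lt_irrefl _ this
    have h4 := hlarge' z' hz'W
    have hmono : ∀ i, ‖z' - x i‖ ≤ ‖z - x i‖ := by
      intro i
      rw [hzz]
      exact radial hl1 (by rw [hz's]; exact (hxs i).le)
    constructor
    · refine h4.trans_le ?_
      rw [hnorm, hnorm]
      gcongr with i
      exact hmono i
    · have hnn : 0 ≤ (‖z‖ - s) / (2 * s) := div_nonneg (by linarith) (by linarith)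
      calc 4 * ((‖z‖ - s) / (2 * s)) ≤ ‖L.eval z'‖ * ((‖z‖ - s) / (2 * s)) := by gcongr
        _ ≤ ‖L.eval z‖ := by
          rw [hnorm, hnorm, ← Finset.mul_prod_erase _ _ (Finset.mem_univ (⟨0, hn⟩ : Fin n)),
            ← Finset.mul_prod_erase _ (fun i => ‖z - x i‖) (Finset.mem_univ (⟨0, hn⟩ : Fin n))]
          set i₀ : Fin n := ⟨0, hn⟩
          have h5 : ‖z' - x i₀‖ * ((‖z‖ - s) / (2 * s)) ≤ ‖z - x i₀‖ := by
            have h6 : ‖z' - x i₀‖ ≤ 2 * s := by
              calc ‖z' - x i₀‖ ≤ ‖z'‖ + ‖x i₀‖ := norm_sub_le _ _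
                _ ≤ 2 * s := by rw [hz's]; linarith [hxs i₀]
            have h7 : ‖z‖ - s ≤ ‖z - x i₀‖ := by
              have := norm_sub_norm_le z (x i₀)
              linarith [hxs i₀]
            calc ‖z' - x i₀‖ * ((‖z‖ - s) / (2 * s)) ≤ (2 * s) * ((‖z‖ - s) / (2 * s)) := by
                  gcongr
              _ = ‖z‖ - s := by field_simp
              _ ≤ _ := h7
          have h8 : ∏ i ∈ Finset.univ.erase i₀, ‖z' - x i‖ ≤ ∏ i ∈ Finset.univ.erase i₀, ‖z - x i‖ :=
            Finset.prod_le_prod (fun _ _ => norm_nonneg _) fun i _ => hmono i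
          have h9 : 0 ≤ ∏ i ∈ Finset.univ.erase i₀, ‖z' - x i‖ :=
            Finset.prod_nonneg fun _ _ => norm_nonneg _
          calc ‖c‖ * (‖z' - x i₀‖ * ∏ i ∈ Finset.univ.erase i₀, ‖z' - x i‖) *
              ((‖z‖ - s) / (2 * s)) = ‖c‖ * ((‖z' - x i₀‖ * ((‖z‖ - s) / (2 * s))) *
                ∏ i ∈ Finset.univ.erase i₀, ‖z' - x i‖) := by ring
            _ ≤ ‖c‖ * (‖z - x i₀‖ * ∏ i ∈ Finset.univ.erase i₀, ‖z - x i‖) := by
              gcongr
  have hin : ∀ c : ℝ, c ≤ 4 → ∀ z : ℂ, ‖L.eval z‖ ≤ c → z ∈ O0 ∨ z ∈ O1 := by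
    intro c hc z hz
    have hzs : ‖z‖ < s := by
      by_contra h
      push Not at h
      have := (hfar z h).1
      linarith
    by_contra h
    have : z ∈ W := ⟨by rw [mem_closedBall_zero_iff]; exact hzs.le, h⟩
    have := hlarge' z this
    linarith
  set e : Bool → ℂ := fun b => if b then (p : ℂ) else 0 with he
  have hef : e false = 0 := by simp [he]
  have het : e true = (p : ℂ) := by simp [he]
  have hef' : e false ∈ K0 := by
    rw [hef, hK0, Complex.ofReal_zero]
    exact mem_closedBall_self hρ.le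
  have het' : e true ∈ K1 := by rw [het]; exact mem_closedBall_self (by positivity)
  have hsub0 : ∀ c : ℝ, 1 / 4 ≤ c → K0 ⊆ Vc (fun z => L.eval z) c (e false) := by
    intro c hc
    exact sub_Vc (convex_closedBall _ _).isPreconnected hef'
      fun z hz => (hsmall' z (Or.inl hz)).le.trans hc
  have hsub1 : ∀ c : ℝ, 1 / 4 ≤ c → K1 ⊆ Vc (fun z => L.eval z) c (e true) := by
    intro c hc
    exact sub_Vc (convex_closedBall _ _).isPreconnected het'
      fun z hz => (hsmall' z (Or.inr hz)).le.trans hc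
  have hcov : ∀ a : ℂ, Vc (fun z => L.eval z) 4 a ⊆ O0 ∪ O1 := fun a z hz =>
    hin 4 le_rfl z (Vc_sub hz)
  have hA : Vc (fun z => L.eval z) 4 (e false) ⊆ O0 :=
    (Vc_pre _ _ _).subset_left_of_subset_union hO0o hO1o hO (hcov _)
      ⟨e false, hsub0 4 (by norm_num) hef', hK0O hef'⟩
  have hB : Vc (fun z => L.eval z) 4 (e true) ⊆ O1 :=
    (Vc_pre _ _ _).subset_right_of_subset_union hO0o hO1o hO (hcov _)
      ⟨e true, hsub1 4 (by norm_num) het', hK1O het'⟩
  refine ⟨L, e, p, hLdeg, ?_, hfar, ?_, hO.mono hA hB, ?_, hB.trans (ball_subset_ball hε₁1)⟩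
  · intro z hz
    apply hsmall' z
    left
    rw [hK0, Complex.ofReal_zero, mem_closedBall_zero_iff]
    exact hz
  · intro c hc1 hc2 z hz
    have hzs : ‖z‖ < s := by
      by_contra h
      push Not at h
      have := (hfar z h).1
      linarith
    obtain ⟨-, honto⟩ := Vc_onto (G := fun z => L.eval z) L.continuous (open_poly hLdeg)
      (isOpen_ball (x := (0 : ℂ)) (ε := s)) isBounded_ball (s := c) (a := z) (by
        intro w hw
        have h5 : w ∈ sphere (0 : ℂ) s := frontier_ball_subset_sphere hw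
        rw [mem_sphere_zero_iff_norm] at h5
        have := (hfar w h5.ge).1
        linarith) (by rwa [mem_ball_zero_iff]) hz
    obtain ⟨w, hw, hw0⟩ := honto 0 (by rw [norm_zero]; linarith)
    rw [hLe, mul_eq_zero, Finset.prod_eq_zero_iff] at hw0
    obtain ⟨i, -, hi⟩ := hw0.resolve_left hc
    rw [sub_eq_zero] at hi
    have hwK : w ∈ K := hi ▸ hxK i
    have hzw : z ∈ Vc (fun z => L.eval z) c w := by
      rw [← Vc_eq hw]; exact mem_Vc hz
    rcases hwK with h | h
    · refine ⟨false, ?_⟩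
      rw [Vc_eq (hsub0 c hc1 h)]
      exact hzw
    · refine ⟨true, ?_⟩
      rw [Vc_eq (hsub1 c hc1 h)]
      exact hzw
  · intro b
    cases b
    · exact hsmall' _ (Or.inl hef')
    · exact hsmall' _ (Or.inr het')

/-- Connected sets that a polynomial maps into a tiny disc are small. -/
theorem small_comp {G : ℂ[X]} (hG : 0 < G.natDegree) {η : ℝ} (hη : 0 < η) :
    ∃ ε : ℝ, 0 < ε ∧ ∀ (p : ℂ) (P : Set ℂ), IsPreconnected P →
      (∀ z ∈ P, ‖G.eval z - p‖ ≤ ε) → ∀ x ∈ P, ∀ y ∈ P, ‖x - y‖ ≤ η := by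
  classical
  set d := G.natDegree with hd
  have hd0 : (0 : ℝ) < d := by exact_mod_cast hG
  set δ : ℝ := η / (2 * d) with hδ
  have hδ0 : 0 < δ := by positivity
  have hGne : G ≠ 0 := by
    rintro rfl
    simp at hd
    omega
  have hlc : G.leadingCoeff ≠ 0 := leadingCoeff_ne_zero.2 hGne
  have hlc0 : 0 < ‖G.leadingCoeff‖ := norm_pos_iff.2 hlc
  refine ⟨‖G.leadingCoeff‖ * δ ^ d, by positivity, fun p P hP hsm x hx y hy => ?_⟩
  set H : ℂ[X] := G - C p with hH
  have hHdeg : H.natDegree = d := natDegree_sub_C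
  have hHlc : H.leadingCoeff = G.leadingCoeff := by
    rw [leadingCoeff, hHdeg, hH, coeff_sub, coeff_C, if_neg (by omega), sub_zero]
    rfl
  have hHsp : H.Splits := IsAlgClosed.splits H
  have hHev : ∀ z, H.eval z = H.leadingCoeff * (H.roots.map (fun a => z - a)).prod := by
    intro z
    exact hHsp.eval_eq_prod_roots z
  have hcard : H.roots.card = d := by
    rw [← hHdeg]; exact hHsp.natDegree_eq_card_roots.symm
  -- every point is close to a root
  have hclose : ∀ z ∈ P, ∃ a ∈ H.roots.toFinset, ‖z - a‖ ≤ δ := by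
    intro z hz
    by_contra hcon
    push Not at hcon
    have h1 : ‖H.eval z‖ ≤ ‖G.leadingCoeff‖ * δ ^ d := by
      rw [hH, eval_sub, eval_C]; exact hsm z hz
    rw [hHev, norm_mul, hHlc] at h1
    have h2 : ‖(H.roots.map (fun a => z - a)).prod‖ ≤ δ ^ d := le_of_mul_le_mul_left h1 hlc0
    have h3 : ‖(H.roots.map (fun a => z - a)).prod‖ = (H.roots.map (fun a => ‖z - a‖)).prod := by
      generalize H.roots = R
      induction R using Multiset.induction_on with
      | empty => simp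
      | cons a R ih =>
        rw [Multiset.map_cons, Multiset.prod_cons, Multiset.map_cons, Multiset.prod_cons, norm_mul,
          ih]
    have h4 : δ ^ d < (H.roots.map (fun a => ‖z - a‖)).prod := by
      rw [← hcard]
      have hall : ∀ a ∈ H.roots, δ < ‖z - a‖ := fun a ha =>
        hcon a (Multiset.mem_toFinset.2 ha)
      have hne : H.roots ≠ 0 := by
        intro h0
        rw [h0, Multiset.card_zero] at hcard
        omega
      clear h3 h2 h1 hHev hcard hcon
      generalize H.roots = R at hall hne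
      induction R using Multiset.induction_on with
      | empty => exact absurd rfl hne
      | cons a R ih =>
        rw [Multiset.map_cons, Multiset.prod_cons, Multiset.card_cons, pow_succ, mul_comm]
        by_cases hR : R = 0
        · subst hR
          simpa using hall a (Multiset.mem_cons_self _ _)
        · have h5 := ih (fun b hb => hall b (Multiset.mem_cons_of_mem hb)) hR
          exact mul_lt_mul'' (hall a (Multiset.mem_cons_self _ _)) h5 hδ0.le (by positivity)
    rw [h3] at h2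
    linarith
  -- measure argument
  by_cases hxy : x = y
  · rw [hxy, sub_self, norm_zero]; exact hη.le
  have hn0 : 0 < ‖y - x‖ := norm_pos_iff.2 (sub_ne_zero.2 (Ne.symm hxy))
  set φ : ℂ → ℝ := fun z => ((starRingEnd ℂ) ((y - x) / ‖y - x‖) * (z - x)).re with hφ
  have hφc : Continuous φ := by
    rw [hφ]; fun_prop
  have hφd : ∀ z w, |φ z - φ w| ≤ ‖z - w‖ := by
    intro z w
    have h1 : φ z - φ w = ((starRingEnd ℂ) ((y - x) / ‖y - x‖) * (z - w)).re := by
      rw [hφ, ← Complex.sub_re]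
      congr 1
      ring
    rw [h1]
    refine (Complex.abs_re_le_norm _).trans ?_
    rw [norm_mul, RCLike.norm_conj, norm_div, Complex.norm_real, norm_norm, div_self hn0.ne',
      one_mul]
  have hφx : φ x = 0 := by simp [hφ]
  have hφy : φ y = ‖y - x‖ := by
    rw [hφ]
    have h1 : (starRingEnd ℂ) ((y - x) / ‖y - x‖) * (y - x) = ((‖y - x‖ : ℝ) : ℂ) := by
      rw [map_div₀, Complex.conj_ofReal, div_mul_eq_mul_div, mul_comm, Complex.mul_conj,
        Complex.normSq_eq_norm_sq]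
      have h2 : ((‖y - x‖ : ℝ) : ℂ) ≠ 0 := by exact_mod_cast hn0.ne'
      push_cast
      field_simp
    simp only
    rw [h1, Complex.ofReal_re]
  have hsub : Icc (0 : ℝ) ‖y - x‖ ⊆ ⋃ a ∈ H.roots.toFinset, Icc (φ a - δ) (φ a + δ) := by
    have h1 := hP.intermediate_value hx hy hφc.continuousOn
    rw [hφx, hφy] at h1
    intro t ht
    obtain ⟨z, hz, rfl⟩ := h1 ht
    obtain ⟨a, ha, hza⟩ := hclose z hz
    rw [mem_iUnion₂]
    refine ⟨a, ha, ?_⟩
    have h2 := (hφd z a).trans hza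
    rw [abs_le] at h2
    exact ⟨by linarith [h2.1], by linarith [h2.2]⟩
  have hvol := MeasureTheory.measure_mono (μ := MeasureTheory.volume) hsub
  have hvol2 := hvol.trans (MeasureTheory.measure_biUnion_finset_le H.roots.toFinset _)
  rw [Real.volume_Icc, sub_zero] at hvol2
  have h3 : ∑ a ∈ H.roots.toFinset, MeasureTheory.volume (Icc (φ a - δ) (φ a + δ))
      ≤ ENNReal.ofReal (d * (2 * δ)) := by
    have h4 : ∀ a ∈ H.roots.toFinset, MeasureTheory.volume (Icc (φ a - δ) (φ a + δ))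
        = ENNReal.ofReal (2 * δ) := by
      intro a _
      rw [Real.volume_Icc]
      congr 1
      ring
    rw [Finset.sum_congr rfl h4, Finset.sum_const, nsmul_eq_mul, ENNReal.ofReal_mul hd0.le]
    apply mul_le_mul_of_nonneg_right _ zero_le
    rw [ENNReal.ofReal_natCast]
    have h5 : H.roots.toFinset.card ≤ d := by
      rw [← hcard]; exact Multiset.toFinset_card_le _
    exact_mod_cast h5
  have h6 := hvol2.trans h3
  rw [ENNReal.ofReal_le_ofReal_iff (by positivity)] at h6
  rw [norm_sub_rev]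
  calc ‖y - x‖ ≤ d * (2 * δ) := h6
    _ = η := by rw [hδ]; field_simp

end Pool.Agent.Y282.SG
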