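import Pool.Agent.TH224.SC.Dyn
import Pool.Agent.Y282.SG.Seq2

/-!
Dynamics of the constructed function.
-/

set_option autoImplicit false

open Filter Topology Metric Set Polynomial

namespace Pool.Agent.Y282.SG

open Pool.Agent.H384R2.Fatou Pool.Agent.W723.MC Pool.Agent.TH224.SC

/-- the constructed function with its radii -/
structure Sys2 (f : ℂ → ℂ) (r s R' : ℕ → ℝ) : Prop where
  hf : Differentiable ℂ f
  ho : IsOpenMap f
  hf0 : f 0 = 0
  hr1 : ∀ m, 1 ≤ r m
  hrs : ∀ m, r m < s m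
  hs20 : ∀ m, 20 ≤ s m
  hR : ∀ m, s m ^ (m + 2) ≤ R' m
  hrR : ∀ m, r (m + 1) = R' m ^ (m + 2)
  st : ∀ m, StageProps2 m (r m) (s m) (r (m + 1)) (s (m + 1)) (R' m) f

theorem exists_sys2 : ∃ (f : ℂ → ℂ) (r s R' : ℕ → ℝ), Sys2 f r s R' := by
  obtain ⟨f, r, s, R', h1, h2, h3, h4, h5⟩ := exists_fun2
  exact ⟨f, r, s, R', h1, h2, h3, fun m => (h4 m).1, fun m => (h4 m).2.1, fun m => (h4 m).2.2.1,
    fun m => (h4 m).2.2.2.1, fun m => (h4 m).2.2.2.2, h5⟩

namespace Sys2

variable {f : ℂ → ℂ} {r s R' : ℕ → ℝ}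

theorem s_pos (h : Sys2 f r s R') (m : ℕ) : 0 < s m := by linarith [h.hs20 m]

theorem s_le_pow (h : Sys2 f r s R') (m : ℕ) : s m ^ 2 ≤ s m ^ (m + 2) :=
  pow_le_pow_right₀ (by linarith [h.hs20 m]) (by omega)

theorem sq_le_R (h : Sys2 f r s R') (m : ℕ) : s m ^ 2 ≤ R' m := (h.s_le_pow m).trans (h.hR m)

theorem s_lt_sq (h : Sys2 f r s R') (m : ℕ) : s m < s m ^ 2 := by nlinarith [h.hs20 m]

theorem R_big (h : Sys2 f r s R') (m : ℕ) : 400 ≤ R' m := by
  nlinarith [h.hs20 m, h.sq_le_R m]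

theorem R_lt (h : Sys2 f r s R') (m : ℕ) : R' m < r (m + 1) / 2 := by
  have h1 := h.R_big m
  have h2 : R' m ^ 2 ≤ R' m ^ (m + 2) := pow_le_pow_right₀ (by linarith) (by omega)
  rw [h.hrR]
  nlinarith

theorem R_lt' (h : Sys2 f r s R') (m : ℕ) : R' m < r (m + 1) := by
  linarith [h.R_lt m, h.hr1 (m + 1)]

theorem s_lt_R (h : Sys2 f r s R') (m : ℕ) : s m < R' m := (h.s_lt_sq m).trans_le (h.sq_le_R m)

theorem s_lt_r (h : Sys2 f r s R') (m : ℕ) : s m < r (m + 1) := (h.s_lt_R m).trans (h.R_lt' m)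

theorem r_mono (h : Sys2 f r s R') : Monotone r :=
  monotone_nat_of_le_succ fun m => ((h.hrs m).trans (h.s_lt_r m)).le

theorem s_mono (h : Sys2 f r s R') : Monotone s :=
  monotone_nat_of_le_succ fun m => ((h.s_lt_r m).trans (h.hrs (m + 1))).le

theorem r_ge (h : Sys2 f r s R') (m : ℕ) : (m : ℝ) ≤ r m := by
  induction m with
  | zero => simpa using zero_le_one.trans (h.hr1 0)
  | succ m ih =>
    have h1 := h.R_lt m
    have h2 := h.R_big m
    have h3 := h.s_lt_R m
    have h4 := h.hrs m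
    push_cast
    linarith

theorem r_tendsto (h : Sys2 f r s R') : Tendsto r atTop atTop :=
  tendsto_atTop_mono h.r_ge tendsto_natCast_atTop_atTop

theorem s_tendsto (h : Sys2 f r s R') : Tendsto s atTop atTop :=
  tendsto_atTop_mono (fun m => (h.hrs m).le) h.r_tendsto

/-- the invariant annuli -/
def B (r s : ℕ → ℝ) (m : ℕ) : Set ℂ := {z | s m < ‖z‖ ∧ ‖z‖ < r (m + 1)}

theorem B_open (r s : ℕ → ℝ) (m : ℕ) : IsOpen (B r s m) :=
  (isOpen_lt continuous_const continuous_norm).inter (isOpen_lt continuous_norm continuous_const)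

theorem B_pre (h : Sys2 f r s R') (m : ℕ) : IsPreconnected (B r s m) :=
  isPreconnected_ann (h.s_pos m)

theorem up (h : Sys2 f r s R') {m : ℕ} {z : ℂ} (hz : ‖z‖ ≤ r m) : ‖f z‖ ≤ R' m := (h.st m).up z hz

theorem B_map (h : Sys2 f r s R') {m : ℕ} {z : ℂ} (hz : z ∈ B r s m) : f z ∈ B r s (m + 1) :=
  ⟨(h.st m).low1 z hz.1.le hz.2.le, (h.up hz.2.le).trans_lt (h.R_lt' _)⟩

theorem B_iter (h : Sys2 f r s R') {m : ℕ} {z : ℂ} (hz : z ∈ B r s m) (k : ℕ) :
    f^[k] z ∈ B r s (m + k) := by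
  induction k with
  | zero => exact hz
  | succ k ih =>
    rw [Function.iterate_succ_apply']
    exact h.B_map ih

theorem B_esc (h : Sys2 f r s R') (m : ℕ) : EscOn f (B r s m) := by
  intro R
  have h1 : Tendsto (fun k => s (m + k)) atTop atTop :=
    h.s_tendsto.comp (tendsto_add_atTop_nat m |>.congr fun k => add_comm k m)
  filter_upwards [h1.eventually_ge_atTop R] with k hk z hz
  exact hk.trans (h.B_iter hz k).1.le

theorem B_fatou (h : Sys2 f r s R') (m : ℕ) : B r s m ⊆ FatouSet f :=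
  subset_fatou_of_escOn (h.B_esc m) (B_open r s m)

/-- the base point -/
noncomputable def pt (s : ℕ → ℝ) : ℂ := ((s 0 ^ 2 : ℝ) : ℂ)

theorem pt_orbit (h : Sys2 f r s R') (m : ℕ) :
    s m ^ (m + 2) ≤ ‖f^[m] (pt s)‖ ∧ ‖f^[m] (pt s)‖ ≤ R' m := by
  induction m with
  | zero =>
    have h1 : ‖f^[0] (pt s)‖ = s 0 ^ 2 := by
      rw [Function.iterate_zero, id, pt, Complex.norm_real, Real.norm_eq_abs,
        abs_of_nonneg (by positivity)]
    rw [h1]
    exact ⟨le_rfl, h.sq_le_R 0⟩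
  | succ m ih =>
    rw [Function.iterate_succ_apply']
    exact ⟨(h.st m).low3 _ ih.1 (ih.2.trans (h.R_lt' m).le), h.up (ih.2.trans (h.R_lt' m).le)⟩

theorem pt_B (h : Sys2 f r s R') (m : ℕ) : f^[m] (pt s) ∈ B r s m :=
  ⟨((h.s_lt_sq m).trans_le (h.s_le_pow m)).trans_le (h.pt_orbit m).1,
    (h.pt_orbit m).2.trans_lt (h.R_lt' m)⟩

/-- the Fatou components -/
def U (f : ℂ → ℂ) (s : ℕ → ℝ) (n : ℕ) : Set ℂ := FatouComponent f (f^[n] (pt s))

theorem pt_F (h : Sys2 f r s R') (n : ℕ) : f^[n] (pt s) ∈ FatouSet f := h.B_fatou n (h.pt_B n)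

theorem pt_U (h : Sys2 f r s R') (n : ℕ) : f^[n] (pt s) ∈ U f s n :=
  mem_connectedComponentIn (h.pt_F n)

theorem U_open (f : ℂ → ℂ) (s : ℕ → ℝ) (n : ℕ) : IsOpen (U f s n) := component_isOpen _ _

theorem U_pre (f : ℂ → ℂ) (s : ℕ → ℝ) (n : ℕ) : IsPreconnected (U f s n) :=
  isPreconnected_connectedComponentIn

theorem U_fatou (f : ℂ → ℂ) (s : ℕ → ℝ) (n : ℕ) : U f s n ⊆ FatouSet f :=
  connectedComponentIn_subset _ _

theorem B_U (h : Sys2 f r s R') (n : ℕ) : B r s n ⊆ U f s n :=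
  (h.B_pre n).subset_connectedComponentIn (h.pt_B n) (h.B_fatou n)

theorem U_map (h : Sys2 f r s R') (n k : ℕ) : f^[k] '' U f s n ⊆ U f s (n + k) := by
  have h1 := component_map h.hf.continuous h.ho (h.pt_F n) k
  rw [← Function.iterate_add_apply, add_comm k n] at h1
  exact h1

theorem growth (h : Sys2 f r s R') {n : ℕ} {q : ℂ} (hq : q ∈ U f s n) (a : ℕ) :
    ∀ᶠ k in atTop, s (n + k) ^ a < ‖f^[k] q‖ ∧ ‖f^[k] q‖ ^ a < r (n + k + 1) := by
  obtain ⟨C, hC, hev⟩ := growth_compare h.hf (h.pt_F n) ((B_open r s n).mem_nhds (h.pt_B n))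
    (h.B_esc n) hq
  have h1 : ∀ᶠ k : ℕ in atTop, (a : ℝ) * C < k :=
    tendsto_natCast_atTop_atTop.eventually_gt_atTop _
  filter_upwards [hev, h1] with k ⟨h2, h3⟩ h4
  rw [← Function.iterate_add_apply, add_comm k n] at h2 h3
  obtain ⟨h5, h6⟩ := h.pt_orbit (n + k)
  have hs := h.hs20 (n + k)
  have hs0 := h.s_pos (n + k)
  have hls : 0 < Real.log (s (n + k)) := Real.log_pos (by linarith)
  have hP0 : 0 < ‖f^[n + k] (pt s)‖ := by
    have : 0 < s (n + k) ^ (n + k + 2) := by positivity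
    linarith
  have h7 : ((n + k + 2 : ℕ) : ℝ) * Real.log (s (n + k)) ≤ Real.log ‖f^[n + k] (pt s)‖ := by
    rw [← Real.log_pow]
    exact Real.log_le_log (by positivity) h5
  have h8 : (k : ℝ) * Real.log (s (n + k)) ≤ C * Real.log ‖f^[k] q‖ := by
    refine le_trans ?_ (h7.trans h3)
    apply mul_le_mul_of_nonneg_right _ hls.le
    push_cast
    linarith [(Nat.cast_nonneg n : (0 : ℝ) ≤ n)]
  have h9 : (a : ℝ) * Real.log (s (n + k)) < Real.log ‖f^[k] q‖ := by
    have e1 : (a : ℝ) * C * Real.log (s (n + k)) < k * Real.log (s (n + k)) :=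
      mul_lt_mul_of_pos_right h4 hls
    have e2 : C * ((a : ℝ) * Real.log (s (n + k))) < C * Real.log ‖f^[k] q‖ := by
      calc C * ((a : ℝ) * Real.log (s (n + k))) = (a : ℝ) * C * Real.log (s (n + k)) := by ring
        _ < _ := e1.trans_le h8
    exact lt_of_mul_lt_mul_left e2 hC.le
  have hq0 : 0 < ‖f^[k] q‖ := by
    rcases (norm_nonneg (f^[k] q)).lt_or_eq with h10 | h10
    · exact h10
    · rw [← h10, Real.log_zero] at h9
      have : 0 ≤ (a : ℝ) * Real.log (s (n + k)) := by positivity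
      linarith
  constructor
  · rw [← Real.log_pow] at h9
    exact (Real.log_lt_log_iff (by positivity) hq0).1 h9
  · have hR := h.R_big (n + k)
    have hlR : 0 < Real.log (R' (n + k)) := Real.log_pos (by linarith)
    have e1 : Real.log ‖f^[n + k] (pt s)‖ ≤ Real.log (R' (n + k)) := Real.log_le_log hP0 h6
    have e2 : Real.log ‖f^[k] q‖ ≤ C * Real.log (R' (n + k)) :=
      h2.trans (mul_le_mul_of_nonneg_left e1 hC.le)
    have e3 : Real.log (r (n + k + 1)) = ((n + k + 2 : ℕ) : ℝ) * Real.log (R' (n + k)) := by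
      rw [h.hrR, Real.log_pow]
    have hr0 : 0 < r (n + k + 1) := by linarith [h.hr1 (n + k + 1)]
    rw [← Real.log_lt_log_iff (by positivity) hr0, Real.log_pow, e3]
    calc (a : ℝ) * Real.log ‖f^[k] q‖ ≤ a * (C * Real.log (R' (n + k))) :=
          mul_le_mul_of_nonneg_left e2 (Nat.cast_nonneg a)
      _ = (a * C) * Real.log (R' (n + k)) := by ring
      _ < ((n + k + 2 : ℕ) : ℝ) * Real.log (R' (n + k)) := by
          apply mul_lt_mul_of_pos_right _ hlR
          push_cast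
          linarith [(Nat.cast_nonneg n : (0 : ℝ) ≤ n)]

theorem U_ne_lt (h : Sys2 f r s R') {j k : ℕ} (hjk : j < k) : U f s j ≠ U f s k := by
  intro heq
  have h1 : f^[k] (pt s) ∈ U f s j := by rw [heq]; exact h.pt_U k
  obtain ⟨i, hi⟩ := (h.growth h1 1).exists
  have h2 := hi.2
  rw [pow_one, ← Function.iterate_add_apply] at h2
  have h3 := (h.pt_B (i + k)).1
  have h4 : s (j + i + 1) ≤ s (i + k) := h.s_mono (by omega)
  have h5 := h.hrs (j + i + 1)
  linarith

theorem U_ne (h : Sys2 f r s R') {j k : ℕ} (hjk : j ≠ k) : U f s j ≠ U f s k := by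
  rcases lt_or_gt_of_ne hjk with h1 | h1
  · exact h.U_ne_lt h1
  · exact (h.U_ne_lt h1).symm

theorem wandering (h : Sys2 f r s R') : IsWanderingDomain f (U f s 0) := by
  refine ⟨U f s, rfl, fun k => ⟨f^[k] (pt s), h.pt_F k, rfl⟩, fun k => ?_, fun j k hjk => h.U_ne hjk⟩
  have := h.U_map 0 k
  rwa [zero_add] at this

/-- a preconnected set with a point inside and a point outside meets the circle -/
theorem cross {A : Set ℂ} (hA : IsPreconnected A) {x y : ℂ} (hx : x ∈ A) (hy : y ∈ A) {t : ℝ}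
    (h1 : ‖x‖ ≤ t) (h2 : t ≤ ‖y‖) : ∃ z ∈ A, ‖z‖ = t := by
  have := hA.intermediate_value hx hy continuous_norm.continuousOn
  obtain ⟨z, hz, hzt⟩ := this ⟨h1, h2⟩
  exact ⟨z, hz, hzt⟩

theorem U_bdd (h : Sys2 f r s R') (n : ℕ) : ∀ z ∈ U f s n, ‖z‖ < s (n + 1) + 1 := by
  intro z hz
  by_contra hcon
  push Not at hcon
  have h1 := (h.pt_B n).2
  have h2 := h.hrs (n + 1)
  obtain ⟨w, hw, hwt⟩ := cross (U_pre f s n) (h.pt_U n) hz (t := s (n + 1) + 1) (by linarith) hcon
  have h3 : w ∈ B r s (n + 1) := by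
    refine ⟨by linarith, ?_⟩
    rw [hwt]
    have := h.s_lt_R (n + 1)
    have := h.R_lt (n + 1)
    have := h.R_big (n + 1)
    linarith
  have h4 := h.B_U (n + 1) h3
  apply h.U_ne_lt (Nat.lt_succ_self n)
  exact (connectedComponentIn_eq hw).trans (connectedComponentIn_eq h4).symm

theorem U_surj (h : Sys2 f r s R') (n : ℕ) : f '' U f s n = U f s (n + 1) := by
  have h0 : f '' U f s n ⊆ U f s (n + 1) := h.U_map n 1
  apply h0.antisymm
  have hcpt : IsCompact (closure (U f s n)) := by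
    apply Bornology.IsBounded.isCompact_closure
    apply (isBounded_ball (x := (0 : ℂ)) (r := s (n + 1) + 1)).subset
    intro z hz
    rw [mem_ball_zero_iff]
    exact h.U_bdd n z hz
  apply (U_pre f s (n + 1)).subset_of_closure_inter_subset (h.ho _ (U_open f s n))
  · refine ⟨f (f^[n] (pt s)), ?_, ⟨_, h.pt_U n, rfl⟩⟩
    exact h0 ⟨_, h.pt_U n, rfl⟩
  · rintro w ⟨hw1, hw2⟩
    have h1 : closure (f '' U f s n) ⊆ f '' closure (U f s n) :=
      closure_minimal (image_mono subset_closure) (hcpt.image h.hf.continuous).isClosed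
    obtain ⟨z, hz, rfl⟩ := h1 hw1
    refine ⟨z, ?_, rfl⟩
    have hzF : z ∈ FatouSet f := fatou_backward h.hf.continuous (U_fatou f s _ hw2)
    obtain ⟨v, hv1, hv2⟩ := mem_closure_iff_nhds.1 hz _
      ((component_isOpen f z).mem_nhds (mem_connectedComponentIn hzF))
    have e1 : U f s n = FatouComponent f v := connectedComponentIn_eq hv2
    have e2 : FatouComponent f z = FatouComponent f v := connectedComponentIn_eq hv1
    rw [e1, ← e2]
    exact mem_connectedComponentIn hzF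

theorem U_iter (h : Sys2 f r s R') (n : ℕ) : f^[n] '' U f s 0 = U f s n := by
  induction n with
  | zero => simp
  | succ n ih =>
    rw [Function.iterate_succ', image_comp, ih, h.U_surj]

theorem ball_iter (h : Sys2 f r s R') {n : ℕ} {z : ℂ} (hz : ‖z‖ < r (n + 1)) (i : ℕ) :
    ‖f^[i] z‖ < r (n + i + 1) := by
  induction i with
  | zero => exact hz
  | succ i ih =>
    rw [Function.iterate_succ_apply']
    exact (h.up ih.le).trans_lt (h.R_lt' _)

theorem fatou_back_iter {f : ℂ → ℂ} (hf : Continuous f) (i : ℕ) {z : ℂ}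
    (hz : f^[i] z ∈ FatouSet f) : z ∈ FatouSet f := by
  induction i with
  | zero => exact hz
  | succ i ih =>
    rw [Function.iterate_succ_apply'] at hz
    exact ih (fatou_backward hf hz)

theorem r_claim (h : Sys2 f r s R') {n : ℕ} {z : ℂ} (hz : ‖z‖ < r (n + 1)) {i : ℕ}
    (hi : s (n + i) < ‖f^[i] z‖) : z ∈ U f s n := by
  set Q : Set ℂ := {w | ‖w‖ < r (n + 1) ∧ s (n + i) < ‖f^[i] w‖} with hQ
  have hci : Continuous f^[i] := h.hf.continuous.iterate i
  have hQo : IsOpen Q := (isOpen_lt continuous_norm continuous_const).inter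
    (isOpen_lt continuous_const hci.norm)
  have hQF : Q ⊆ FatouSet f := by
    intro w hw
    apply fatou_back_iter h.hf.continuous i
    exact h.B_fatou (n + i) ⟨hw.2, h.ball_iter hw.1 i⟩
  set C := connectedComponentIn Q z with hC
  have hzQ : z ∈ Q := ⟨hz, hi⟩
  have hzC : z ∈ C := mem_connectedComponentIn hzQ
  have hCQ : C ⊆ Q := connectedComponentIn_subset _ _
  have hCp : IsPreconnected C := isPreconnected_connectedComponentIn
  have hmeet : (C ∩ B r s n).Nonempty := by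
    by_contra hcon
    rw [Set.not_nonempty_iff_eq_empty] at hcon
    have hsub : C ⊆ closedBall 0 (s n) := by
      intro w hw
      rw [mem_closedBall_zero_iff]
      by_contra h1
      push Not at h1
      have : w ∈ C ∩ B r s n := ⟨hw, h1, (hCQ hw).1⟩
      rw [hcon] at this
      exact this
    have hCb : Bornology.IsBounded C := isBounded_closedBall.subset hsub
    have hmax : ‖f^[i] z‖ ≤ s (n + i) := by
      apply Complex.norm_le_of_forall_mem_frontier_norm_le hCb
        ((h.hf.iterate i).diffContOnCl) _ (subset_closure hzC)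
      intro w hw
      have h1 := frontier_comp hQo hw
      have h2 : w ∈ closedBall (0 : ℂ) (s n) :=
        closure_minimal hsub isClosed_closedBall (frontier_subset_closure hw)
      rw [mem_closedBall_zero_iff] at h2
      by_contra h3
      push Not at h3
      exact h1 ⟨h2.trans_lt (h.s_lt_r n), h3⟩
    linarith
  obtain ⟨w, hw1, hw2⟩ := hmeet
  have h1 : IsPreconnected (C ∪ B r s n) := IsPreconnected.union w hw1 hw2 hCp (h.B_pre n)
  exact h1.subset_connectedComponentIn (Or.inr (h.pt_B n))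
    (union_subset (hCQ.trans hQF) (h.B_fatou n)) (Or.inl hzC)

theorem not_U (h : Sys2 f r s R') {n : ℕ} {z : ℂ} (hz : z ∉ U f s n) (hzr : ‖z‖ < r (n + 1)) (i : ℕ) :
    ‖f^[i] z‖ ≤ s (n + i) := by
  by_contra hcon
  push Not at hcon
  exact hz (h.r_claim hzr hcon)

theorem iter_zero (h : Sys2 f r s R') (k : ℕ) : f^[k] 0 = 0 := by
  induction k with
  | zero => rfl
  | succ k ih => rw [Function.iterate_succ_apply', ih, h.hf0]

theorem not_U_of_hits (h : Sys2 f r s R') {n j : ℕ} {z : ℂ} (hz : f^[j] z = 0) : z ∉ U f s n := by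
  intro hzU
  obtain ⟨k, hk, hkj⟩ := ((h.growth hzU 1).and (eventually_ge_atTop j)).exists
  obtain ⟨l, rfl⟩ := Nat.exists_eq_add_of_le hkj
  have h1 : f^[j + l] z = 0 := by
    rw [add_comm, Function.iterate_add_apply, hz, h.iter_zero]
  have h2 := hk.1
  rw [h1, norm_zero, pow_one] at h2
  linarith [h.s_pos (n + (j + l))]

/-- the complementary component of `0` is bounded -/
theorem mult (h : Sys2 f r s R') : (0 : ℂ) ∈ (U f s 0)ᶜ ∧
    Bornology.IsBounded (connectedComponentIn (U f s 0)ᶜ 0) := by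
  have h0 : (0 : ℂ) ∈ (U f s 0)ᶜ := h.not_U_of_hits (j := 0) rfl
  refine ⟨h0, ?_⟩
  apply (isBounded_closedBall (x := (0 : ℂ)) (r := s 0 + 1)).subset
  intro z hz
  rw [mem_closedBall_zero_iff]
  by_contra hcon
  push Not at hcon
  obtain ⟨w, hw, hwt⟩ := cross isPreconnected_connectedComponentIn (mem_connectedComponentIn h0) hz
    (t := s 0 + 1) (by rw [norm_zero]; linarith [h.s_pos 0]) hcon.le
  have h1 : w ∈ B r s 0 := by
    refine ⟨by linarith, ?_⟩
    rw [hwt]
    have := h.s_lt_R 0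
    have := h.R_lt 0
    have := h.R_big 0
    show s 0 + 1 < r (0 + 1)
    linarith
  exact connectedComponentIn_subset _ _ hw (h.B_U 0 h1)

end Sys2

end Pool.Agent.Y282.SG
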